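import Pool.Agent.Q170.HG.MainG

/-!
# The returns to a curve, for all self-maps of quasi-projective varieties over all fields

Let `Φ : X → X` be a map of a set `X` of points of `ℙ^N(K)` which is given locally by forms over the field `K`
(any field, for example the field of complex numbers). For example `X` is the set of the `K`-points of a
quasi-projective variety and `Φ` is a morphism, or `X` is the set of the `K`-points with a well-defined orbit
under a rational self-map. There is `D` such that for every closed `V` with `dim (V ∩ X) ≤ 1` there is `C` such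
that for ALL points `α ∈ X` the return set `{n | Φ^n(α) ∈ V}` is the union of `C` sets, each of which is a
progression of modulus at most `C`, or an exceptional set `s` with the following properties.

1. If `α` is not preperiodic, then for all `g` at most `C (2 D ^ (N + 1)) ^ g` elements of `s` are followed by
another one at distance at most `g`; and `s` has at most `C T / log T` elements in every interval of length `T`.
2. If `K` is a number field, then `n < n'` in `s` implies `h(Φ^n(α)) ≤ C D ^ (n' - n)`. So if the heights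
`h(Φ^n(α))` grow exponentially, at least like `r ^ n`, then `s` has geometric gaps:
`n' ≥ (1 + log r / log D) n - C'`, and it has `O(log T)` elements up to `T`.

The proof: let `W` be a component of the closure of `V ∩ X` which is not periodic, `y` a nonconstant
coordinate. The function field of `W` has a finite basis over `K(y)`, multiplication with the coordinates
is given by matrices of polynomials in `y`, multiplication with `G ∘ Φ^k` (`G` one of the equations, and
`Φ^k` given by a composition of `k` of the finitely many systems of forms of degree `D` which define `Φ`) by a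
matrix of polynomials in `y` of degree `C D ^ k` (and with coefficients of logarithmic size `C D ^ k`, if
`K` is a number field), and its determinant vanishes at the values of `y` at the points of `W ∩ Φ^(-k)(W)`.
So the number of these points (and their heights) is bounded in terms of `D ^ k`, with the exception of the
points of a proper closed subset of `W`.
-/

set_option autoImplicit false

open MvPolynomial

namespace Pool.Agent.Results.MP_1502ea_ag.HeightsOfReturns

/-- The points of the projective space over `K`. -/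
abbrev PN (K : Type) [Field K] (N : ℕ) : Type := Projectivization K (Fin (N + 1) → K)

/-- `v` is a vector of homogeneous coordinates of the point `x`. -/
def Coord {K : Type} [Field K] {N : ℕ} (x : PN K N) (v : Fin (N + 1) → K) : Prop :=
  ∃ h : v ≠ 0, Projectivization.mk K v h = x

/-- On the part of `X` where `g` is not zero, the map `Φ` is given by the forms `F i`. -/
def IsChart {K : Type} [Field K] {N : ℕ} (X : Set (PN K N)) (Φ : PN K N → PN K N)
    (F : Fin (N + 1) → MvPolynomial (Fin (N + 1)) K) (g : MvPolynomial (Fin (N + 1)) K) : Prop :=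
  (∃ d : ℕ, ∀ i, (F i).IsHomogeneous d) ∧ (∃ e : ℕ, g.IsHomogeneous e) ∧
    ∀ y ∈ X, eval y.rep g ≠ 0 → Coord (Φ y) fun i => eval y.rep (F i)

/-- `Φ` maps `X` to `X` and is given locally by forms. -/
def IsMorphism {K : Type} [Field K] {N : ℕ} (X : Set (PN K N)) (Φ : PN K N → PN K N) : Prop :=
  (∀ x ∈ X, Φ x ∈ X) ∧ ∀ x ∈ X, ∃ F g, eval x.rep g ≠ 0 ∧ IsChart X Φ F g

/-- A closed subset of `ℙ^N`, given by forms. -/
structure Closed (K : Type) [Field K] (N : ℕ) where
  forms : Set (MvPolynomial (Fin (N + 1)) K)
  homogeneous : ∀ g ∈ forms, ∃ e : ℕ, g.IsHomogeneous e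

/-- The point `x` is in `V`. -/
def Closed.Has {K : Type} [Field K] {N : ℕ} (V : Closed K N) (x : PN K N) : Prop :=
  ∀ g ∈ V.forms, eval x.rep g = 0

/-- The dimension of `V ∩ X` is at most one: any two quotients `x_i / x_l`, `x_j / x_l` of coordinates
satisfy a polynomial equation on `V ∩ X`. -/
def Closed.AtMostCurve {K : Type} [Field K] {N : ℕ} (V : Closed K N) (X : Set (PN K N)) : Prop :=
  ∀ i j l, ∃ Q : Polynomial (Polynomial K), Q ≠ 0 ∧
    ∀ x ∈ X, V.Has x → x.rep l ≠ 0 → Q.evalEval (x.rep j / x.rep l) (x.rep i / x.rep l) = 0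

/-- A progression of modulus at most `C`. -/
def IsProgression (C : ℕ) (s : Set ℕ) : Prop :=
  ∃ a m, 0 < m ∧ m ≤ C ∧ s = {n | ∃ j, n = a + m * j}

/-- At most `C D ^ g` elements are followed by another one at distance at most `g`, and every interval
of length `T` has at most `C T / log T` elements. -/
def Rare (D C : ℕ) (s : Set ℕ) : Prop :=
  (∀ g : ℕ, {a | a ∈ s ∧ ∃ b ∈ s, a < b ∧ b ≤ a + g}.encard ≤ (C * D ^ g : ℕ)) ∧
    ∀ M T : ℕ, 2 ≤ T → ((s ∩ Set.Ico M (M + T)).ncard : ℝ) ≤ C * (T / Real.log T)

/-- The height of `Φ^a(α)` is at most `C D ^ (b - a)` for `a < b` in `s`. -/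
def Tight {K : Type} [Field K] [NumberField K] {N : ℕ} (Φ : PN K N → PN K N) (α : PN K N)
    (D C : ℕ) (s : Set ℕ) : Prop :=
  ∀ a ∈ s, ∀ b ∈ s, a < b → Projectivization.logHeight (Φ^[a] α) ≤ C * (D : ℝ) ^ (b - a)

theorem result (K : Type) [Field K] (N : ℕ) (X : Set (PN K N)) (Φ : PN K N → PN K N)
    (hΦ : IsMorphism X Φ) :
    ∃ D : ℕ, 2 ≤ D ∧ ∀ V : Closed K N, V.AtMostCurve X → ∃ C : ℕ,
      (∀ α ∈ X, ∃ s : Fin C → Set ℕ,
        (∀ i, IsProgression C (s i) ∨
          (((Function.Injective fun n => Φ^[n] α) → Rare (2 * D ^ (N + 1)) C (s i)) ∧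
            ∀ _ : NumberField K, Tight Φ α D C (s i))) ∧
        {n | V.Has (Φ^[n] α)} = ⋃ i, s i) ∧
      ∀ _ : NumberField K, ∀ r c : ℝ, 1 < r → 0 < c → ∀ n₀ : ℕ, ∃ C' : ℕ, ∀ α ∈ X,
        (∀ n, n₀ ≤ n → c * r ^ n ≤ Projectivization.logHeight (Φ^[n] α)) →
          ∀ s, Tight Φ α D C s → ∀ a ∈ s, ∀ b ∈ s, a < b →
            (1 + Real.log r / Real.log D) * a ≤ b + C' := by
  obtain ⟨D, hD, h⟩ := Pool.Agent.Q170.HG.quasiG hΦ.1 hΦ.2
  refine ⟨D, hD, fun V hV => ?_⟩
  obtain ⟨C, hC⟩ := h V.forms V.homogeneous hV
  refine ⟨C, hC, fun hK r c hr hc n₀ => ?_⟩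
  obtain ⟨C', hC'⟩ := Pool.Agent.Q170.HG.tight_growth hD C hr hc n₀
  exact ⟨C', fun α _ hgrow s hs => hC' _ hgrow s hs⟩

end Pool.Agent.Results.MP_1502ea_ag.HeightsOfReturns
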